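import Mathlib

/-!
# Ample numbers coprime to the first `k` primes exist for every `k`

The number `a n` of recursive divisors satisfies `a n ≥ [n = 1] + ∑_{m ∈ M, m ∣ n} a (n / m)` for
every finite set `M` of integers `≥ 2`.  If `M` consists of integers coprime to the first `k` primes
and `∑_{m ∈ M} m ^ (-s) ≥ 1` for some `s > 1`, then `∑ a n / n ^ s` over the integers `n` composed
of the primes dividing elements of `M` diverges, while `∑ n / n ^ s` over the same integers
converges; so `a n > n` for some such `n`.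
-/

open Finset Filter Topology
open scoped ENNReal

namespace Pool.Agent.Results.MP_bbacab_nt.AllK

/-- The number of recursive divisors: `a 1 = 1` and `a n = 1 + ∑ a m` over the proper divisors `m`
of `n` (for `n = 1` the sum is empty). -/
def a (n : ℕ) : ℕ := 1 + ∑ m ∈ n.properDivisors.attach, a m.1
termination_by n
decreasing_by exact (Nat.mem_properDivisors.1 m.2).2

theorem a_eq (n : ℕ) : a n = 1 + ∑ m ∈ n.properDivisors, a m := by
  rw [a, Finset.sum_attach n.properDivisors (fun m => a m)]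

/-- The weight `n ^ (-s)` as an extended nonnegative real. -/
noncomputable def w (s : ℝ) (n : ℕ) : ℝ≥0∞ := ENNReal.ofReal ((n : ℝ) ^ (-s))

theorem w_one (s : ℝ) : w s 1 = 1 := by simp [w]

theorem w_mul (s : ℝ) (m n : ℕ) : w s (m * n) = w s m * w s n := by
  unfold w
  rw [← ENNReal.ofReal_mul (by positivity)]
  congr 1
  push_cast
  exact Real.mul_rpow (by positivity) (by positivity)

theorem a_ge (M : Finset ℕ) (hM : ∀ m ∈ M, 2 ≤ m) (n : ℕ) (hn : n ≠ 0) :
    (if n = 1 then 1 else 0) + ∑ m ∈ M, (if m ∣ n then a (n / m) else 0) ≤ a n := by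
  rw [a_eq n]
  have h1 : (if n = 1 then 1 else 0) ≤ 1 := by split_ifs <;> omega
  have h2 : ∑ m ∈ M, (if m ∣ n then a (n / m) else 0) ≤ ∑ m ∈ n.properDivisors, a m := by
    rw [← Finset.sum_filter]
    have hinj : Set.InjOn (fun m => n / m) (M.filter (· ∣ n) : Finset ℕ) := by
      intro x hx y hy hxy
      rw [Finset.mem_coe, Finset.mem_filter] at hx hy
      have hx' := Nat.div_mul_cancel hx.2
      have hy' := Nat.div_mul_cancel hy.2
      simp only at hxy
      have : n / x ≠ 0 := by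
        intro h0; rw [h0] at hx'; omega
      rw [← hxy] at hy'
      exact Nat.eq_of_mul_eq_mul_left (Nat.pos_of_ne_zero this) (hx'.trans hy'.symm)
    rw [← Finset.sum_image (f := a) hinj]
    apply Finset.sum_le_sum_of_subset
    intro d hd
    simp only [mem_image, mem_filter] at hd
    obtain ⟨m, ⟨hm, hmn⟩, rfl⟩ := hd
    rw [Nat.mem_properDivisors]
    exact ⟨Nat.div_dvd_of_dvd hmn, Nat.div_lt_self (Nat.pos_of_ne_zero hn) (hM m hm)⟩
  omega

theorem diverges (s : ℝ) (Q M : Finset ℕ) (hM : ∀ m ∈ M, 2 ≤ m)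
    (hMQ : ∀ m ∈ M, m ∈ Nat.factoredNumbers Q) (hs : 1 ≤ ∑ m ∈ M, w s m) :
    ∑' n : Nat.factoredNumbers Q, (a n : ℝ≥0∞) * w s n = ⊤ := by
  classical
  set D : ℝ≥0∞ := ∑' n : Nat.factoredNumbers Q, (a n : ℝ≥0∞) * w s n with hD
  have key : 1 + D ≤ D := by
    have step1 : ∑' n : Nat.factoredNumbers Q, (((if (n : ℕ) = 1 then (1 : ℝ≥0∞) else 0) +
        ∑ m ∈ M, (if m ∣ (n : ℕ) then (a ((n : ℕ) / m) : ℝ≥0∞) else 0)) * w s n) ≤ D := by
      apply ENNReal.tsum_le_tsum
      intro n
      gcongr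
      have := a_ge M hM n n.2.1
      have h2 : (((if (n : ℕ) = 1 then 1 else 0) +
        ∑ m ∈ M, (if m ∣ (n : ℕ) then a ((n : ℕ) / m) else 0) : ℕ) : ℝ≥0∞) ≤ (a n : ℝ≥0∞) := by
        exact_mod_cast this
      refine le_trans (le_of_eq ?_) h2
      push_cast
      rfl
    refine le_trans ?_ step1
    have step2 : ∑' n : Nat.factoredNumbers Q, (((if (n : ℕ) = 1 then (1 : ℝ≥0∞) else 0) +
        ∑ m ∈ M, (if m ∣ (n : ℕ) then (a ((n : ℕ) / m) : ℝ≥0∞) else 0)) * w s n) =
        ∑' n : Nat.factoredNumbers Q, ((if (n : ℕ) = 1 then (1 : ℝ≥0∞) else 0) * w s n) +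
        ∑ m ∈ M, ∑' n : Nat.factoredNumbers Q,
          ((if m ∣ (n : ℕ) then (a ((n : ℕ) / m) : ℝ≥0∞) else 0) * w s n) := by
      rw [← Summable.tsum_finsetSum (fun i _ => ENNReal.summable), ← ENNReal.tsum_add]
      congr 1
      ext n
      rw [add_mul, Finset.sum_mul]
    rw [step2]
    apply add_le_add
    · have h1 : (1 : ℕ) ∈ Nat.factoredNumbers Q := by
        rw [Nat.mem_factoredNumbers]; simp
      have := ENNReal.le_tsum (f := fun n : Nat.factoredNumbers Q =>
        ((if (n : ℕ) = 1 then (1 : ℝ≥0∞) else 0) * w s n)) ⟨1, h1⟩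
      simpa [w_one] using this
    · calc D ≤ (∑ m ∈ M, w s m) * D := by
            calc D = 1 * D := (one_mul D).symm
              _ ≤ _ := by gcongr
        _ = ∑ m ∈ M, w s m * D := Finset.sum_mul ..
        _ ≤ _ := by
            apply Finset.sum_le_sum
            intro m hm
            rw [hD, ← ENNReal.tsum_mul_left]
            have hm0 : 0 < m := by have := hM m hm; omega
            let φ : Nat.factoredNumbers Q → Nat.factoredNumbers Q := fun n =>
              ⟨m * n, Nat.mul_mem_factoredNumbers (hMQ m hm) n.2⟩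
            have hφ : Function.Injective φ := by
              intro x y hxy
              have : m * (x : ℕ) = m * y := congrArg Subtype.val hxy
              exact Subtype.ext (Nat.eq_of_mul_eq_mul_left hm0 this)
            refine le_trans (le_of_eq ?_) (ENNReal.tsum_comp_le_tsum_of_injective hφ
              (fun n : Nat.factoredNumbers Q =>
                ((if m ∣ (n : ℕ) then (a ((n : ℕ) / m) : ℝ≥0∞) else 0) * w s n)))
            congr 1
            ext n
            simp only [φ]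
            rw [if_pos (Dvd.intro _ rfl), Nat.mul_div_cancel_left _ hm0, w_mul]
            ring
  by_contra hne
  exact absurd key (not_le.2 (by
    rw [add_comm]
    exact ENNReal.lt_add_right hne one_ne_zero))

theorem converges (s : ℝ) (hs : 1 < s) (Q : Finset ℕ) :
    ∑' n : Nat.factoredNumbers Q, ((n : ℕ) : ℝ≥0∞) * w s n ≠ ⊤ := by
  -- the completely multiplicative function `n ↦ n ^ (1 - s)`
  let f : ℕ →* ℝ :=
    { toFun := fun n => (n : ℝ) ^ (1 - s)
      map_one' := by simp
      map_mul' := fun m n => by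
        push_cast
        exact Real.mul_rpow (by positivity) (by positivity) }
  have hf : ∀ {p : ℕ}, p.Prime → ‖f p‖ < 1 := by
    intro p hp
    have h2 : (1 : ℝ) < p := by exact_mod_cast hp.one_lt
    change ‖(p : ℝ) ^ (1 - s)‖ < 1
    rw [Real.norm_of_nonneg (by positivity)]
    exact Real.rpow_lt_one_of_one_lt_of_neg h2 (by linarith)
  have hsum := (EulerProduct.summable_and_hasSum_factoredNumbers_prod_filter_prime_geometric
    hf Q).1
  have heq : ∀ n : Nat.factoredNumbers Q, ((n : ℕ) : ℝ≥0∞) * w s n = ENNReal.ofReal ‖f n‖ := by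
    intro n
    have hn : (0 : ℝ) < ((n : ℕ) : ℝ) := by
      exact_mod_cast Nat.pos_of_ne_zero n.2.1
    have h1 : ((n : ℕ) : ℝ≥0∞) = ENNReal.ofReal ((n : ℕ) : ℝ) := by simp
    rw [h1, w, ← ENNReal.ofReal_mul (by positivity)]
    congr 1
    change _ = ‖((n : ℕ) : ℝ) ^ (1 - s)‖
    rw [Real.norm_of_nonneg (by positivity), sub_eq_add_neg, Real.rpow_add hn, Real.rpow_one]
  simp_rw [heq]
  exact hsum.tsum_ofReal_ne_top

/-- For every bound `B` there is a finite set of integers `≥ 2`, all of whose prime factors exceed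
`B`, with sum of reciprocals larger than `1`. -/
theorem exists_set (B : ℕ) : ∃ M : Finset ℕ, (∀ m ∈ M, 2 ≤ m) ∧
    (∀ m ∈ M, ∀ p : ℕ, p.Prime → p ∣ m → B < p) ∧ 1 < ∑ m ∈ M, ((m : ℝ))⁻¹ := by
  set P := B.factorial with hP
  have hP0 : 0 < P := Nat.factorial_pos B
  have hdiv := Real.tendsto_sum_range_one_div_nat_succ_atTop
  obtain ⟨J, hJ⟩ := (hdiv.eventually_gt_atTop ((P : ℝ) + 1)).exists
  let e : ℕ → ℕ := fun j => 1 + (j + 1) * P
  have he : Function.Injective e := by
    intro x y hxy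
    simp only [e, add_right_inj] at hxy
    have := Nat.eq_of_mul_eq_mul_right hP0 hxy
    omega
  refine ⟨(Finset.range J).image e, ?_, ?_, ?_⟩
  · intro m hm
    obtain ⟨j, -, rfl⟩ := Finset.mem_image.1 hm
    have : 1 ≤ (j + 1) * P := Nat.mul_pos (by omega) hP0
    simp only [e]; omega
  · intro m hm p hp hpm
    obtain ⟨j, -, rfl⟩ := Finset.mem_image.1 hm
    by_contra hB
    have h1 : p ∣ P := (Nat.Prime.dvd_factorial hp).2 (by omega)
    have h2 : p ∣ (j + 1) * P := Dvd.dvd.mul_left h1 _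
    have h3 : p ∣ 1 := (Nat.dvd_add_left h2).1 hpm
    exact hp.one_lt.ne' (Nat.dvd_one.1 h3)
  · rw [Finset.sum_image (fun x _ y _ h => he h)]
    have hlow : ∀ j ∈ Finset.range J,
        (1 / ((P : ℝ) + 1)) * (1 / ((j : ℝ) + 1)) ≤ ((e j : ℕ) : ℝ)⁻¹ := by
      intro j _
      have hPr : (0 : ℝ) < P := by exact_mod_cast hP0
      rw [one_div_mul_one_div, one_div]
      apply inv_anti₀
      · have : 0 < e j := by simp only [e]; omega
        exact_mod_cast this
      · simp only [e]; push_cast; nlinarith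
    have := Finset.sum_le_sum hlow
    rw [← Finset.mul_sum] at this
    refine lt_of_lt_of_le ?_ this
    have hPr : (0 : ℝ) < (P : ℝ) + 1 := by positivity
    rw [one_div_mul_eq_div, lt_div_iff₀ hPr, one_mul]
    exact hJ

/-- Ample numbers all of whose prime factors exceed `B`. -/
theorem exists_ample (B : ℕ) :
    ∃ n : ℕ, 0 < n ∧ n < a n ∧ ∀ p : ℕ, p.Prime → p ∣ n → B < p := by
  obtain ⟨M, hM2, hMB, hM1⟩ := exists_set B
  -- an exponent `s > 1` which still gives a sum larger than `1`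
  obtain ⟨s, hs1, hs⟩ : ∃ s : ℝ, 1 < s ∧ 1 < ∑ m ∈ M, (m : ℝ) ^ (-s) := by
    have hcont : ContinuousAt (fun s : ℝ => ∑ m ∈ M, (m : ℝ) ^ (-s)) 1 := by
      apply tendsto_finsetSum
      intro m hm
      have hm0 : (m : ℝ) ≠ 0 := by
        have := hM2 m hm
        exact_mod_cast (by omega : m ≠ 0)
      exact ((Real.continuous_const_rpow hm0).comp continuous_neg).continuousAt
    have h1 : (1 : ℝ) < (fun s : ℝ => ∑ m ∈ M, (m : ℝ) ^ (-s)) 1 := by
      simpa [Real.rpow_neg_one] using hM1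
    have h2 : ∀ᶠ s in 𝓝[>] (1 : ℝ), 1 < ∑ m ∈ M, (m : ℝ) ^ (-s) :=
      (hcont.eventually (lt_mem_nhds h1)).filter_mono nhdsWithin_le_nhds
    have h3 : ∀ᶠ s in 𝓝[>] (1 : ℝ), 1 < s := eventually_mem_nhdsWithin
    obtain ⟨s, hs, hs'⟩ := (h2.and h3).exists
    exact ⟨s, hs', hs⟩
  set Q : Finset ℕ := M.biUnion Nat.primeFactors with hQ
  have hMQ : ∀ m ∈ M, m ∈ Nat.factoredNumbers Q := by
    intro m hm
    rw [Nat.mem_factoredNumbers_iff_primeFactors_subset]
    exact ⟨by have := hM2 m hm; omega, Finset.subset_biUnion_of_mem Nat.primeFactors hm⟩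
  have hQB : ∀ q ∈ Q, B < q := by
    intro q hq
    obtain ⟨m, hm, hqm⟩ := Finset.mem_biUnion.1 hq
    exact hMB m hm q (Nat.prime_of_mem_primeFactors hqm) (Nat.dvd_of_mem_primeFactors hqm)
  have hsw : 1 ≤ ∑ m ∈ M, w s m := by
    unfold w
    rw [← ENNReal.ofReal_sum_of_nonneg (fun _ _ => by positivity), ← ENNReal.ofReal_one]
    exact ENNReal.ofReal_le_ofReal hs.le
  have hdiv := diverges s Q M hM2 hMQ hsw
  have hconv := converges s hs1 Q
  by_contra hcon
  push Not at hcon
  apply hconv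
  rw [eq_top_iff, ← hdiv]
  apply ENNReal.tsum_le_tsum
  intro n
  gcongr
  by_contra hlt
  obtain ⟨p, hp, hpn, hpB⟩ := hcon n (Nat.pos_of_ne_zero n.2.1) (not_le.1 hlt)
  have : p ∈ Q := by
    have h := (Nat.mem_factoredNumbers_iff_primeFactors_subset.1 n.2).2
    exact h (Nat.mem_primeFactors.2 ⟨hp, hpn, n.2.1⟩)
  exact absurd (hQB p this) (by omega)

/-! ### Sanity checks for `a` -/

theorem a_one : a 1 = 1 := by rw [a_eq]; simp

theorem a_prime {p : ℕ} (hp : p.Prime) : a p = 2 := by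
  rw [a_eq, hp.properDivisors]; simp [a_one]

theorem a_ten : a 10 = 6 := by
  have h : Nat.properDivisors 10 = {1, 2, 5} := by decide +kernel
  rw [a_eq, h]
  simp [a_one, a_prime Nat.prime_two, a_prime Nat.prime_five]

/-- For every `k ≥ 1` there is an ample number (`a n > n`) coprime to the product of the first `k`
primes. -/
theorem result : ∀ k : ℕ, 1 ≤ k → ∃ n : ℕ, 0 < n ∧ n < a n ∧
    Nat.gcd n (∏ i ∈ Finset.range k, Nat.nth Nat.Prime i) = 1 := by
  intro k _
  obtain ⟨n, hn0, hn, hB⟩ := exists_ample (∏ i ∈ Finset.range k, Nat.nth Nat.Prime i)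
  refine ⟨n, hn0, hn, ?_⟩
  by_contra hne
  obtain ⟨p, hp, hpd⟩ := Nat.exists_prime_and_dvd hne
  have h1 : p ∣ n := hpd.trans (Nat.gcd_dvd_left _ _)
  have h2 : p ∣ ∏ i ∈ Finset.range k, Nat.nth Nat.Prime i := hpd.trans (Nat.gcd_dvd_right _ _)
  have h3 := hB p hp h1
  have h4 : 0 < ∏ i ∈ Finset.range k, Nat.nth Nat.Prime i :=
    Finset.prod_pos fun i _ => (Nat.prime_nth_prime i).pos
  exact absurd (Nat.le_of_dvd h4 h2) (by omega)

end Pool.Agent.Results.MP_bbacab_nt.AllK
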